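import Pool.Agent.H89.FLT.S

/-!
# MP_e1ba20: row FIB
-/

set_option autoImplicit false

open Matrix Polynomial

namespace Pool.FLT

namespace H2FIB

lemma cst_mul {n : ℕ} (a b : Matrix (Fin n) (Fin n) ℤ) : cst (a * b) = cst a * cst b := by
  show (a * b).map (Int.castRingHom ℝ) = a.map (Int.castRingHom ℝ) * b.map (Int.castRingHom ℝ)
  exact Matrix.map_mul

lemma cst_inj {n : ℕ} {a b : Matrix (Fin n) (Fin n) ℤ} (h : cst a = cst b) : a = b :=
  Matrix.map_injective Int.cast_injective h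

lemma inc_coe {n : ℕ} (γ : GZ n) :
    ((inc n γ : GR n) : Matrix (Fin n) (Fin n) ℝ) = cst (γ : Matrix (Fin n) (Fin n) ℤ) := rfl

/-- an integer matrix which is diagonal in the basis `g` is determined by its eigenvalues -/
lemma dg_unique {n : ℕ} {g : GR n} {η η' : Matrix (Fin n) (Fin n) ℤ} {d : Fin n → ℝ}
    (h : Dg g η d) (h' : Dg g η' d) : η = η' := by
  apply cst_inj
  unfold Dg at h h'
  have hg : (g : Matrix (Fin n) (Fin n) ℝ) * ((g⁻¹ : GR n) : Matrix (Fin n) (Fin n) ℝ) = 1 := by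
    rw [← Matrix.SpecialLinearGroup.coe_mul, mul_inv_cancel, Matrix.SpecialLinearGroup.coe_one]
  calc cst η = cst η * ((g : Matrix (Fin n) (Fin n) ℝ) * ((g⁻¹ : GR n) : Matrix (Fin n) (Fin n) ℝ)) := by
        rw [hg, mul_one]
    _ = cst η' * ((g : Matrix (Fin n) (Fin n) ℝ) * ((g⁻¹ : GR n) : Matrix (Fin n) (Fin n) ℝ)) := by
        rw [← mul_assoc, h, ← h', mul_assoc]
    _ = cst η' := by rw [hg, mul_one]

lemma norm_pm {n : ℕ} (σ : Equiv.Perm (Fin n)) (x : aa n) : ‖pm σ x‖ = ‖x‖ := by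
  show ‖((pm σ x : aa n) : EuclideanSpace ℝ (Fin n))‖ = ‖(x : EuclideanSpace ℝ (Fin n))‖
  rw [EuclideanSpace.norm_eq, EuclideanSpace.norm_eq]
  congr 1
  exact Equiv.sum_comp σ.symm fun i => ‖co x i‖ ^ 2

lemma transfer {n : ℕ} (h2 : MACStmt) (g g0 M : GR n) (γ : GZ n)
    (hM : Mono (M : Matrix (Fin n) (Fin n) ℝ)) (hg : g = inc n γ * g0 * M)
    (η : Matrix (Fin n) (Fin n) ℤ) (θ : Fin n → ℝ) (hD : Dg g η θ) (x : aa n)
    (hx : ∀ i, |θ i| = Real.exp (co x i)) :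
    ∃ (η' : Matrix (Fin n) (Fin n) ℤ) (θ' : Fin n → ℝ) (x' : aa n), Dg g0 η' θ' ∧
      η'.charpoly = η.charpoly ∧ (∀ i, |θ' i| = Real.exp (co x' i)) ∧ ‖x'‖ = ‖x‖ := by
  obtain ⟨σ, t, -, -, hd⟩ := h2 n M hM
  refine ⟨((γ⁻¹ : GZ n) : Matrix (Fin n) (Fin n) ℤ) * (η * (γ : Matrix (Fin n) (Fin n) ℤ)),
    fun i => θ (σ.symm i), pm σ x, ?_, ?_, ?_, norm_pm σ x⟩
  · have hMM : (M : Matrix (Fin n) (Fin n) ℝ) * ((M⁻¹ : GR n) : Matrix (Fin n) (Fin n) ℝ) = 1 := by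
      rw [← Matrix.SpecialLinearGroup.coe_mul, mul_inv_cancel, Matrix.SpecialLinearGroup.coe_one]
    have hγ : cst ((γ⁻¹ : GZ n) : Matrix (Fin n) (Fin n) ℤ) * cst (γ : Matrix (Fin n) (Fin n) ℤ) = 1 := by
      rw [← inc_coe, ← inc_coe, ← Matrix.SpecialLinearGroup.coe_mul, ← map_mul, inv_mul_cancel,
        map_one, Matrix.SpecialLinearGroup.coe_one]
    have hD' := hD
    unfold Dg at hD' ⊢
    rw [hg, Matrix.SpecialLinearGroup.coe_mul, Matrix.SpecialLinearGroup.coe_mul, inc_coe] at hD'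
    have e1 : cst η * (cst (γ : Matrix (Fin n) (Fin n) ℤ) * (g0 : Matrix (Fin n) (Fin n) ℝ)) =
        cst (γ : Matrix (Fin n) (Fin n) ℤ) * (g0 : Matrix (Fin n) (Fin n) ℝ) *
          diagonal (fun i => θ (σ.symm i)) := by
      calc cst η * (cst (γ : Matrix (Fin n) (Fin n) ℤ) * (g0 : Matrix (Fin n) (Fin n) ℝ)) =
            cst η * (cst (γ : Matrix (Fin n) (Fin n) ℤ) * (g0 : Matrix (Fin n) (Fin n) ℝ) *
              (M : Matrix (Fin n) (Fin n) ℝ)) * ((M⁻¹ : GR n) : Matrix (Fin n) (Fin n) ℝ) := by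
              simp only [mul_assoc, hMM, mul_one]
        _ = cst (γ : Matrix (Fin n) (Fin n) ℤ) * (g0 : Matrix (Fin n) (Fin n) ℝ) *
              (M : Matrix (Fin n) (Fin n) ℝ) * diagonal θ *
              ((M⁻¹ : GR n) : Matrix (Fin n) (Fin n) ℝ) := by rw [hD']
        _ = cst (γ : Matrix (Fin n) (Fin n) ℤ) * (g0 : Matrix (Fin n) (Fin n) ℝ) *
              ((M : Matrix (Fin n) (Fin n) ℝ) * diagonal θ) *
              ((M⁻¹ : GR n) : Matrix (Fin n) (Fin n) ℝ) := by simp only [mul_assoc]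
        _ = _ := by rw [hd]; simp only [mul_assoc, hMM, mul_one]
    rw [cst_mul, cst_mul, mul_assoc, mul_assoc, e1, ← mul_assoc, ← mul_assoc, hγ, one_mul]
  · have hγ : (γ : Matrix (Fin n) (Fin n) ℤ) * ((γ⁻¹ : GZ n) : Matrix (Fin n) (Fin n) ℤ) = 1 := by
      rw [← Matrix.SpecialLinearGroup.coe_mul, mul_inv_cancel, Matrix.SpecialLinearGroup.coe_one]
    rw [Matrix.charpoly_mul_comm, mul_assoc, hγ, mul_one]
  · intro i
    exact hx (σ.symm i)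

/-- signs -/
def sg (b : Bool) : ℝ := if b then -1 else 1

lemma sg_spec (u v : ℝ) (h : |u| = v) : sg (decide (u < 0)) * v = u := by
  unfold sg
  rcases lt_or_ge u 0 with hu | hu
  · rw [if_pos (decide_eq_true hu), ← h, abs_of_neg hu]; ring
  · rw [if_neg (by simpa using hu), ← h, abs_of_nonneg hu]; ring

open Classical in
/-- the characteristic polynomial of the integer matrix with given eigenvalues -/
noncomputable def Fn {n : ℕ} (g0 : GR n) (p : aa n × (Fin n → Bool)) : ℤ[X] :=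
  if h : ∃ η : Matrix (Fin n) (Fin n) ℤ, Dg g0 η (fun i => sg (p.2 i) * Real.exp (co p.1 i)) then
    h.choose.charpoly else 0

lemma Fn_spec {n : ℕ} (g0 : GR n) (p : aa n × (Fin n → Bool)) (η : Matrix (Fin n) (Fin n) ℤ)
    (h : Dg g0 η (fun i => sg (p.2 i) * Real.exp (co p.1 i))) : Fn g0 p = η.charpoly := by
  have hex : ∃ η : Matrix (Fin n) (Fin n) ℤ, Dg g0 η (fun i => sg (p.2 i) * Real.exp (co p.1 i)) :=
    ⟨η, h⟩
  unfold Fn
  rw [dif_pos hex, dg_unique hex.choose_spec h]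

end H2FIB

open H2FIB in
theorem fib (h1 : EQFStmt) (h2 : MACStmt) (h3 : SUBStmt) (h4 : GAPStmt) (h5 : CNTStmt)
    (h6 : FRKStmt) : FIBStmt := by
  intro n hn
  obtain ⟨c0, hc0, hgap⟩ := h4 n hn
  obtain ⟨C, hC, hcnt⟩ := h5 (n - 1) c0 hc0
  refine ⟨2 ^ n * C, by positivity, ?_⟩
  intro ρ g0 hρ
  obtain ⟨L, hL⟩ := h3 n g0
  obtain ⟨hfin, hcard⟩ := hcnt (aa n) (h6 n (by omega)) (Sm g0 ρ) ρ hρ (fun x hx => hx.2) (by
    intro x hx y hy hxy
    rw [dist_eq_norm]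
    have hxL : x ∈ L := by
      rw [← SetLike.mem_coe, hL]; exact hx.1
    have hyL : y ∈ L := by
      rw [← SetLike.mem_coe, hL]; exact hy.1
    have hxyL : x - y ∈ Lam g0 := by
      rw [← hL]; exact L.sub_mem hxL hyL
    exact hgap g0 (x - y) hxyL (sub_ne_zero.2 hxy))
  set PS : Set ℤ[X] := {P : ℤ[X] | ∃ (g : GR n) (η : Matrix (Fin n) (Fin n) ℤ) (θ : Fin n → ℝ),
    Dg g η θ ∧ η.charpoly = P ∧
    fl ⊤ g = fl ⊤ g0 ∧ ∃ x ∈ Lam g, ‖x‖ ≤ ρ ∧ ∀ i, |θ i| = Real.exp (co x i)} with hPS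
  have hsub : PS ⊆ (Fn g0) '' (Sm g0 ρ ×ˢ (Set.univ : Set (Fin n → Bool))) := by
    rintro P ⟨g, η, θ, hD, rfl, hfl, x, hx, hxρ, hxθ⟩
    obtain ⟨γ, M, hM, hg⟩ := h1 n hn g g0 hfl
    obtain ⟨η', θ', x', hD', hch, hx', hnx⟩ := transfer h2 g g0 M γ hM hg η θ hD x hxθ
    refine ⟨(x', fun i => decide (θ' i < 0)), ⟨⟨⟨η', θ', hD', hx'⟩, ?_⟩, Set.mem_univ _⟩, ?_⟩
    · show ‖x'‖ ≤ ρ
      rw [hnx]; exact hxρ
    · rw [← hch]
      apply Fn_spec
      have e : (fun i => sg (decide (θ' i < 0)) * Real.exp (co x' i)) = θ' := by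
        funext i
        exact sg_spec _ _ (hx' i)
      show Dg g0 η' (fun i => sg (decide (θ' i < 0)) * Real.exp (co x' i))
      rw [e]
      exact hD'
  have hfin2 : (Sm g0 ρ ×ˢ (Set.univ : Set (Fin n → Bool))).Finite :=
    hfin.prod Set.finite_univ
  have hfin3 : ((Fn g0) '' (Sm g0 ρ ×ˢ (Set.univ : Set (Fin n → Bool)))).Finite := hfin2.image _
  refine ⟨hfin3.subset hsub, ?_⟩
  have hc1 : PS.ncard ≤ (Sm g0 ρ).ncard * 2 ^ n := by
    calc PS.ncard ≤ ((Fn g0) '' (Sm g0 ρ ×ˢ (Set.univ : Set (Fin n → Bool)))).ncard :=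
          Set.ncard_le_ncard hsub hfin3
      _ ≤ (Sm g0 ρ ×ˢ (Set.univ : Set (Fin n → Bool))).ncard := Set.ncard_image_le hfin2
      _ = (Sm g0 ρ).ncard * 2 ^ n := by
          rw [Set.ncard_prod, Set.ncard_univ, Nat.card_eq_fintype_card, Fintype.card_fun,
            Fintype.card_bool, Fintype.card_fin]
  have hc2 : (PS.ncard : ℝ) ≤ ((Sm g0 ρ).ncard : ℝ) * 2 ^ n := by exact_mod_cast hc1
  calc (PS.ncard : ℝ) ≤ ((Sm g0 ρ).ncard : ℝ) * 2 ^ n := hc2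
    _ ≤ (C * ρ ^ (n - 1)) * 2 ^ n := mul_le_mul_of_nonneg_right hcard (by positivity)
    _ = 2 ^ n * C * ρ ^ (n - 1) := by ring

end Pool.FLT
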