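import Pool.Agent.H89.FLT.S

/-!
# MP_e1ba20: row FRK
-/

set_option autoImplicit false

open Matrix Polynomial

namespace Pool.FLT

namespace H2FRK

/-- the sum of the coordinates -/
noncomputable def sm (n : ℕ) : EuclideanSpace ℝ (Fin n) →ₗ[ℝ] ℝ where
  toFun x := ∑ i, x i
  map_add' x y := by simp [Finset.sum_add_distrib]
  map_smul' c x := by simp [Finset.mul_sum]

lemma ker_sm (n : ℕ) : LinearMap.ker (sm n) = aa n := by
  ext x
  simp [sm, aa]

lemma range_sm (n : ℕ) (hn : 1 ≤ n) : LinearMap.range (sm n) = ⊤ := by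
  rw [LinearMap.range_eq_top]
  intro c
  refine ⟨EuclideanSpace.single ⟨0, hn⟩ c, ?_⟩
  show ∑ i, (EuclideanSpace.single (⟨0, hn⟩ : Fin n) c : EuclideanSpace ℝ (Fin n)) i = c
  simp

end H2FRK

open H2FRK in
theorem frk : FRKStmt := by
  intro n hn
  have h := LinearMap.finrank_range_add_finrank_ker (sm n)
  rw [range_sm n hn, finrank_top, Module.finrank_self, finrank_euclideanSpace_fin, ker_sm] at h
  omega

end Pool.FLT
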